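import Pool.Agent.H503R3.FR.Stmts

/-! Task Scale of project H503-FR. -/

set_option autoImplicit false

namespace H503R3.FR.Scale

theorem taskScale : TaskScale := by
  intro A _ P _ n x z
  have h : ∀ y : Localization.AtPrime P, ∃ (a : A) (s : P.primeCompl),
      y * algebraMap A (Localization.AtPrime P) s = algebraMap A (Localization.AtPrime P) a := by
    intro y
    obtain ⟨⟨a, s⟩, hs⟩ := IsLocalization.surj P.primeCompl y
    exact ⟨a, s, hs⟩
  have hu : ∀ s : P.primeCompl, IsUnit (algebraMap A (Localization.AtPrime P) s) := fun s =>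
    IsLocalization.map_units (Localization.AtPrime P) s
  choose a s has using fun l => h (x l)
  obtain ⟨b, t, hbt⟩ := h z
  refine ⟨a, b, algebraMap A (Localization.AtPrime P) t, hu t, ?_, ?_⟩
  · rw [← hbt, mul_comm]
  · apply le_antisymm
    · rw [Ideal.span_le]
      rintro _ ⟨l, rfl⟩
      show algebraMap A (Localization.AtPrime P) (a l) ∈ Ideal.span (Set.range x)
      rw [← has l]
      exact Ideal.mul_mem_right _ _ (Ideal.subset_span ⟨l, rfl⟩)
    · rw [Ideal.span_le]
      rintro _ ⟨l, rfl⟩
      obtain ⟨u, hu'⟩ := hu (s l)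
      have e : x l = algebraMap A (Localization.AtPrime P) (a l) *
          ((u⁻¹ : (Localization.AtPrime P)ˣ) : Localization.AtPrime P) := by
        rw [← has l, ← hu', mul_assoc, Units.mul_inv, mul_one]
      show x l ∈ Ideal.span (Set.range fun l => algebraMap A (Localization.AtPrime P) (a l))
      rw [e]
      exact Ideal.mul_mem_right _ _ (Ideal.subset_span ⟨l, rfl⟩)

end H503R3.FR.Scale
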